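import Pool.Agent.N931.AS.LogAvg

/-!
Logarithmic averages of bounded random variables whose correlations decay like `(m/n)^γ` converge
almost surely (helper756; port of `N931/AS/LogAvg.lean` from events to bounded variables).
-/

set_option autoImplicit false

namespace Pool.Agent.N756.EM

open Finset MeasureTheory ProbabilityTheory Filter Topology
open Pool.Agent.N931.AS (sum_Icc_shift HN HN_le le_HN HN_diff pow_sum int3 ae_zero jj jj_le lt_jj
  jj_tendsto)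

variable {Ω : Type} [MeasurableSpace Ω] {μ : Measure Ω} [IsProbabilityMeasure μ]

theorem Y_memLp {Y : Ω → ℝ} (hY : Measurable Y) (hb : ∀ ω, |Y ω| ≤ 1) : MemLp Y 2 μ :=
  MemLp.of_bound hY.aestronglyMeasurable 1 (Eventually.of_forall fun ω => by
    rw [Real.norm_eq_abs]
    exact hb ω)

/-- the weighted sum -/
noncomputable def Sc (Y : ℕ → Ω → ℝ) (N : ℕ) (ω : Ω) : ℝ :=
  ∑ n ∈ range N, ((n : ℝ) + 1)⁻¹ * Y (n + 1) ω

theorem Sc_memLp {Y : ℕ → Ω → ℝ} (hA : ∀ n, Measurable (Y n)) (hb : ∀ n ω, |Y n ω| ≤ 1) (N : ℕ) :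
    MemLp (Sc Y N) 2 μ := by
  unfold Sc
  exact memLp_finsetSum _ fun n _ => (Y_memLp (μ := μ) (hA (n + 1)) (hb (n + 1))).const_mul _

theorem Sc_var {Y : ℕ → Ω → ℝ} (hA : ∀ n, Measurable (Y n)) (hb : ∀ n ω, |Y n ω| ≤ 1) {C γ : ℝ} (hC : 0 ≤ C)
    (hγ : 0 < γ) (hγ1 : γ ≤ 1)
    (h : ∀ m n, 1 ≤ m → m ≤ n →
      ∫ ω, Y m ω * Y n ω ∂μ ≤ C * ((m : ℝ) / n) ^ γ) (N : ℕ) :
    ∫ ω, Sc Y N ω ^ 2 ∂μ ≤ (2 * C / γ + 1) * HN N := by
  induction N with
  | zero => simp [Sc, HN]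
  | succ N ih =>
    have hN : (0 : ℝ) < (N : ℝ) + 1 := by positivity
    have e1 : ∀ ω, Sc Y (N + 1) ω ^ 2 = Sc Y N ω ^ 2 +
        2 * ((N : ℝ) + 1)⁻¹ * (Sc Y N ω * Y (N + 1) ω) +
        (((N : ℝ) + 1)⁻¹) ^ 2 * (Y (N + 1) ω * Y (N + 1) ω) := by
      intro ω
      unfold Sc
      rw [Finset.sum_range_succ]
      ring
    have i1 : Integrable (fun ω => Sc Y N ω ^ 2) μ := (Sc_memLp (μ := μ) hA hb N).integrable_sq
    have i2 : Integrable (fun ω => Sc Y N ω * Y (N + 1) ω) μ :=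
      (Sc_memLp (μ := μ) hA hb N).integrable_mul (Y_memLp (μ := μ) (hA (N + 1)) (hb (N + 1)))
    have i3 : Integrable (fun ω => Y (N + 1) ω * Y (N + 1) ω) μ :=
      (Y_memLp (μ := μ) (hA (N + 1)) (hb (N + 1))).integrable_mul (Y_memLp (μ := μ) (hA (N + 1)) (hb (N + 1)))
    simp_rw [e1]
    rw [int3 i1 i2 i3]
    have c1 : ∫ ω, Sc Y N ω * Y (N + 1) ω ∂μ ≤ C * (1 / γ) := by
      have e2 : ∀ ω, Sc Y N ω * Y (N + 1) ω =
          ∑ n ∈ range N, ((n : ℝ) + 1)⁻¹ * (Y (n + 1) ω * Y (N + 1) ω) := by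
        intro ω
        unfold Sc
        rw [Finset.sum_mul]
        exact Finset.sum_congr rfl fun n _ => by ring
      simp_rw [e2]
      have i4 : ∀ n ∈ range N, Integrable (fun ω => ((n : ℝ) + 1)⁻¹ *
          (Y (n + 1) ω * Y (N + 1) ω)) μ := fun n _ =>
        ((Y_memLp (μ := μ) (hA (n + 1)) (hb (n + 1))).integrable_mul (Y_memLp (μ := μ) (hA (N + 1)) (hb (N + 1)))).const_mul _
      rw [integral_finsetSum _ i4]
      calc ∑ n ∈ range N, ∫ ω, ((n : ℝ) + 1)⁻¹ * (Y (n + 1) ω * Y (N + 1) ω) ∂μ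
          ≤ ∑ n ∈ range N, C * (((n : ℝ) + 1)⁻¹ * (((n : ℝ) + 1) / ((N : ℝ) + 1)) ^ γ) := by
            apply Finset.sum_le_sum
            intro n hn
            have hn' := Finset.mem_range.1 hn
            rw [integral_const_mul]
            have h3 := h (n + 1) (N + 1) (by omega) (by omega)
            push_cast at h3
            have h4 : (0 : ℝ) ≤ ((n : ℝ) + 1)⁻¹ := by positivity
            nlinarith
        _ = C * ∑ n ∈ range N, (((n : ℝ) + 1)⁻¹ * (((n : ℝ) + 1) / ((N : ℝ) + 1)) ^ γ) := by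
            rw [Finset.mul_sum]
        _ ≤ C * (1 / γ) := mul_le_mul_of_nonneg_left (pow_sum hγ hγ1 N) hC
    have c2 : ∫ ω, Y (N + 1) ω * Y (N + 1) ω ∂μ ≤ 1 := by
      calc ∫ ω, Y (N + 1) ω * Y (N + 1) ω ∂μ ≤ ∫ _ω, (1 : ℝ) ∂μ := by
            apply integral_mono i3 (integrable_const _)
            intro ω
            have := hb (N + 1) ω
            have h5 := abs_le.1 this
            show Y (N + 1) ω * Y (N + 1) ω ≤ 1
            nlinarith
        _ = 1 := by simp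
    have h6 : HN (N + 1) = HN N + ((N : ℝ) + 1)⁻¹ := by
      unfold HN; rw [Finset.sum_range_succ]
    rw [h6]
    have h7 : (0 : ℝ) < ((N : ℝ) + 1)⁻¹ := by positivity
    have h8 : ((N : ℝ) + 1)⁻¹ ≤ 1 := inv_le_one_of_one_le₀ (by linarith [Nat.cast_nonneg (α := ℝ) N])
    have h9 : 2 * ((N : ℝ) + 1)⁻¹ * (∫ ω, Sc Y N ω * Y (N + 1) ω ∂μ) ≤
        2 * ((N : ℝ) + 1)⁻¹ * (C * (1 / γ)) := mul_le_mul_of_nonneg_left c1 (by positivity)
    have h10 : (((N : ℝ) + 1)⁻¹) ^ 2 * (∫ ω, Y (N + 1) ω * Y (N + 1) ω ∂μ) ≤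
        ((N : ℝ) + 1)⁻¹ := by
      calc _ ≤ (((N : ℝ) + 1)⁻¹) ^ 2 * 1 := mul_le_mul_of_nonneg_left c2 (by positivity)
        _ ≤ ((N : ℝ) + 1)⁻¹ := by nlinarith
    have h11 : 2 * ((N : ℝ) + 1)⁻¹ * (C * (1 / γ)) = 2 * C / γ * ((N : ℝ) + 1)⁻¹ := by ring
    rw [h11] at h9
    linarith [h9, h10, ih]

theorem log_avg_zero {Y : ℕ → Ω → ℝ} (hA : ∀ n, Measurable (Y n)) (hb : ∀ n ω, |Y n ω| ≤ 1) {C γ : ℝ} (hC : 0 ≤ C)
    (hγ : 0 < γ) (hγ1 : γ ≤ 1)
    (h : ∀ m n, 1 ≤ m → m ≤ n →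
      ∫ ω, Y m ω * Y n ω ∂μ ≤ C * ((m : ℝ) / n) ^ γ) :
    ∀ᵐ ω ∂μ, Tendsto (fun N : ℕ => Sc Y N ω / Real.log N) atTop (𝓝 0) := by
  have hl2 : 0 < Real.log 2 := Real.log_pos (by norm_num)
  set K : ℝ := 2 * C / γ + 1 with hK
  have hK0 : 0 ≤ K := by positivity
  -- along the subsequence
  have hsub : ∀ᵐ ω ∂μ, Tendsto (fun j : ℕ => Sc Y (2 ^ (j + 1) ^ 2) ω /
      (((j : ℝ) + 1) ^ 2 * Real.log 2)) atTop (𝓝 0) := by
    apply ae_zero (c := fun j : ℕ => K * (1 + Real.log 2) / Real.log 2 ^ 2 * (1 / ((j : ℝ) + 1) ^ 2))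
      (fun j => by
        have e0 : (fun ω => Sc Y (2 ^ (j + 1) ^ 2) ω / (((j : ℝ) + 1) ^ 2 * Real.log 2)) =
            fun ω => (((j : ℝ) + 1) ^ 2 * Real.log 2)⁻¹ * Sc Y (2 ^ (j + 1) ^ 2) ω := by
          funext ω; rw [div_eq_inv_mul]
        rw [e0]
        exact (Sc_memLp (μ := μ) hA hb (2 ^ (j + 1) ^ 2)).const_mul _)
    · apply Summable.mul_left
      have := (Real.summable_one_div_nat_add_rpow 1 2).2 (by norm_num)
      refine this.congr fun j => ?_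
      rw [abs_of_nonneg (by positivity)]
      norm_num
    · intro j
      have e1 : ∀ ω, (Sc Y (2 ^ (j + 1) ^ 2) ω / (((j : ℝ) + 1) ^ 2 * Real.log 2)) ^ 2 =
          ((((j : ℝ) + 1) ^ 2 * Real.log 2) ^ 2)⁻¹ * Sc Y (2 ^ (j + 1) ^ 2) ω ^ 2 := by
        intro ω; rw [div_pow, div_eq_inv_mul]
      simp_rw [e1]
      rw [integral_const_mul]
      have h1 := Sc_var (μ := μ) hA hb hC hγ hγ1 h (2 ^ (j + 1) ^ 2)
      have h2 := HN_le (2 ^ (j + 1) ^ 2)
      push_cast at h2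
      rw [Real.log_pow] at h2
      push_cast at h2
      have hj : (1 : ℝ) ≤ ((j : ℝ) + 1) ^ 2 := by
        have : (0 : ℝ) ≤ j := Nat.cast_nonneg j
        nlinarith
      have h3 : HN (2 ^ (j + 1) ^ 2) ≤ ((j : ℝ) + 1) ^ 2 * (1 + Real.log 2) := by
        push_cast
        nlinarith
      have h4 : ∫ ω, Sc Y (2 ^ (j + 1) ^ 2) ω ^ 2 ∂μ ≤
          K * (((j : ℝ) + 1) ^ 2 * (1 + Real.log 2)) :=
        h1.trans (mul_le_mul_of_nonneg_left h3 hK0)
      refine (mul_le_mul_of_nonneg_left h4 (by positivity)).trans (le_of_eq ?_)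
      field_simp
  filter_upwards [hsub] with ω hω
  -- interpolation
  have hlim : Tendsto (fun N : ℕ => |Sc Y (2 ^ (jj N) ^ 2) ω| / ((jj N : ℝ) ^ 2 * Real.log 2) +
      (1 + (2 * (jj N : ℝ) + 1) * Real.log 2) / ((jj N : ℝ) ^ 2 * Real.log 2)) atTop (𝓝 (0 + 0)) := by
    apply Tendsto.add
    · have h1 : Tendsto (fun j : ℕ => |Sc Y (2 ^ j ^ 2) ω| / ((j : ℝ) ^ 2 * Real.log 2))
          atTop (𝓝 0) := by
        rw [← tendsto_add_atTop_iff_nat 1]
        have h2 := hω.abs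
        rw [abs_zero] at h2
        refine h2.congr fun j => ?_
        rw [abs_div, abs_of_nonneg (by positivity : 0 ≤ ((j : ℝ) + 1) ^ 2 * Real.log 2)]
        push_cast
        rfl
      exact h1.comp jj_tendsto
    · have h1 : Tendsto (fun j : ℕ => (1 + (2 * (j : ℝ) + 1) * Real.log 2) /
          ((j : ℝ) ^ 2 * Real.log 2)) atTop (𝓝 0) := by
        have t1 : Tendsto (fun j : ℕ => ((j : ℝ))⁻¹) atTop (𝓝 0) :=
          tendsto_inv_atTop_zero.comp tendsto_natCast_atTop_atTop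
        have t2 : Tendsto (fun j : ℕ => ((1 + Real.log 2) / Real.log 2) * (((j : ℝ))⁻¹ * ((j : ℝ))⁻¹) +
            2 * ((j : ℝ))⁻¹) atTop (𝓝 (((1 + Real.log 2) / Real.log 2) * (0 * 0) + 2 * 0)) :=
          ((t1.mul t1).const_mul _).add (t1.const_mul 2)
        simp only [mul_zero, add_zero] at t2
        refine t2.congr' ?_
        filter_upwards [eventually_ge_atTop 1] with j hj
        have hj' : (j : ℝ) ≠ 0 := by
          have : (1 : ℝ) ≤ j := by exact_mod_cast hj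
          linarith
        field_simp
        ring
      exact h1.comp jj_tendsto
  rw [add_zero] at hlim
  refine squeeze_zero_norm' ?_ hlim
  filter_upwards [eventually_ge_atTop 2, jj_tendsto.eventually_ge_atTop 1] with N hN hjN
  set j := jj N with hj
  set M : ℕ := 2 ^ j ^ 2 with hM
  have hM1 : 1 ≤ M := Nat.one_le_two_pow
  have hMN : M ≤ N := jj_le (by omega)
  have hN' : (2 : ℝ) ≤ N := by exact_mod_cast hN
  have hj' : (1 : ℝ) ≤ j := by exact_mod_cast hjN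
  have hlogN : 0 < Real.log N := Real.log_pos (by linarith)
  have hlogM : Real.log M = (j : ℝ) ^ 2 * Real.log 2 := by
    rw [hM]; push_cast; rw [Real.log_pow]; push_cast; rfl
  have hMN' : Real.log M ≤ Real.log N :=
    Real.log_le_log (by exact_mod_cast hM1) (by exact_mod_cast hMN)
  have hup : Real.log N ≤ ((j : ℝ) + 1) ^ 2 * Real.log 2 := by
    have h1 : (N : ℝ) ≤ 2 ^ (j + 1) ^ 2 := by exact_mod_cast (lt_jj N).le
    calc Real.log N ≤ Real.log (2 ^ (j + 1) ^ 2) := Real.log_le_log (by linarith) h1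
      _ = _ := by rw [Real.log_pow]; push_cast; rfl
  have hdiff : |Sc Y N ω - Sc Y M ω| ≤ HN N - HN M := by
    unfold Sc HN
    rw [← Finset.sum_range_add_sum_Ico _ hMN, ← Finset.sum_range_add_sum_Ico _ hMN,
      add_sub_cancel_left, add_sub_cancel_left]
    refine (Finset.abs_sum_le_sum_abs _ _).trans (Finset.sum_le_sum fun n _ => ?_)
    rw [abs_mul, abs_of_nonneg (by positivity : (0 : ℝ) ≤ ((n : ℝ) + 1)⁻¹)]
    have h1 := hb (n + 1) ω
    have h2 : (0 : ℝ) ≤ ((n : ℝ) + 1)⁻¹ := by positivity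
    nlinarith
  have hHN := HN_diff (N := N) hM1
  have hlogM0 : 0 < (j : ℝ) ^ 2 * Real.log 2 := by positivity
  rw [Real.norm_eq_abs, abs_div, abs_of_pos hlogN]
  have h1 : |Sc Y N ω| ≤ |Sc Y M ω| + (1 + (2 * (j : ℝ) + 1) * Real.log 2) := by
    have h2 : |Sc Y N ω| ≤ |Sc Y M ω| + |Sc Y N ω - Sc Y M ω| := by
      have := abs_add_le (Sc Y M ω) (Sc Y N ω - Sc Y M ω)
      rwa [add_sub_cancel] at this
    nlinarith
  rw [← add_div]
  apply div_le_div₀ _ h1 hlogM0 _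
  · positivity
  · rw [← hlogM]; exact hMN'


/-- the law of large numbers for logarithmic averages -/
theorem log_lln0 (X : ℕ → Ω → ℝ) (C γ : ℝ) (hX : ∀ n, Measurable (X n))
    (hb : ∀ n ω, |X n ω| ≤ 1) (hC : 0 ≤ C) (hγ : 0 < γ) (hγ1 : γ ≤ 1)
    (h : ∀ m n, 1 ≤ m → m ≤ n →
      |∫ ω, X m ω * X n ω ∂μ - (∫ ω, X m ω ∂μ) * ∫ ω, X n ω ∂μ| ≤ C * ((m : ℝ) / n) ^ γ) :
    ∀ᵐ ω ∂μ, Tendsto (fun N : ℕ => (∑ n ∈ Finset.Icc 1 N,
      (n : ℝ)⁻¹ * (X n ω - ∫ ω', X n ω' ∂μ)) / Real.log N) atTop (𝓝 0) := by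
  have hM : ∀ n, MemLp (X n) 2 μ := fun n => Y_memLp (hX n) (hb n)
  have hI : ∀ n, Integrable (X n) μ := fun n => (hM n).integrable (by norm_num)
  have hE : ∀ n, |∫ ω, X n ω ∂μ| ≤ 1 := by
    intro n
    calc |∫ ω, X n ω ∂μ| ≤ ∫ ω, |X n ω| ∂μ := abs_integral_le_integral_abs
      _ ≤ ∫ _ω, (1 : ℝ) ∂μ := integral_mono (hI n).abs (integrable_const _) (hb n)
      _ = 1 := by simp
  obtain ⟨e, he⟩ : ∃ e : ℕ → ℝ, e = fun n => ∫ ω, X n ω ∂μ := ⟨_, rfl⟩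
  obtain ⟨Y, hY⟩ : ∃ Y : ℕ → Ω → ℝ, Y = fun n ω => (X n ω - e n) / 2 := ⟨_, rfl⟩
  have hYm : ∀ n, Measurable (Y n) := by
    intro n
    rw [hY]
    exact ((hX n).sub_const _).div_const _
  have hYb : ∀ n ω, |Y n ω| ≤ 1 := by
    intro n ω
    have h1 := abs_le.1 (hb n ω)
    have h2 := abs_le.1 (hE n)
    have h3 : e n = ∫ ω, X n ω ∂μ := by rw [he]
    have h4 : Y n ω = (X n ω - e n) / 2 := by rw [hY]
    rw [h4, abs_le, h3]
    constructor <;> linarith [h1.1, h1.2, h2.1, h2.2]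
  have hcov : ∀ m n, 1 ≤ m → m ≤ n → ∫ ω, Y m ω * Y n ω ∂μ ≤ (C / 4) * ((m : ℝ) / n) ^ γ := by
    intro m n hm hmn
    have h1 := (abs_le.1 (h m n hm hmn)).2
    have e1 : ∀ ω, Y m ω * Y n ω = (1 / 4) * (X m ω * X n ω) + (-(e n) / 4) * X m ω +
        1 * ((-(e m) / 4) * X n ω + e m * e n / 4) := by
      intro ω
      rw [hY]
      ring
    have i1 : Integrable (fun ω => X m ω * X n ω) μ := (hM m).integrable_mul (hM n)
    simp_rw [e1]
    rw [int3 (i1.const_mul _) (hI m) (h := fun ω => (-(e m) / 4) * X n ω + e m * e n / 4)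
      (((hI n).const_mul _).add (integrable_const _)), integral_const_mul,
      integral_add (f := fun ω => (-(e m) / 4) * X n ω) (g := fun _ => e m * e n / 4)
        ((hI n).const_mul _) (integrable_const _), integral_const_mul, integral_const]
    have h2 : ∫ ω, X m ω ∂μ = e m := by rw [he]
    have h3 : ∫ ω, X n ω ∂μ = e n := by rw [he]
    rw [h2, h3] at h1
    rw [h2, h3]
    simp only [probReal_univ, smul_eq_mul]
    linarith
  filter_upwards [log_avg_zero hYm hYb (by positivity : 0 ≤ C / 4) hγ hγ1 hcov] with ω hω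
  have h5 := hω.const_mul 2
  rw [mul_zero] at h5
  refine h5.congr fun N => ?_
  rw [sum_Icc_shift, ← mul_div_assoc]
  congr 1
  unfold Sc
  rw [Finset.mul_sum]
  refine Finset.sum_congr rfl fun n _ => ?_
  rw [hY, he]
  push_cast
  ring

end Pool.Agent.N756.EM
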